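import Pool.Agent.H84.SL.Targets
import Pool.Agent.H85.OD.CHI

/-!
# MP_70ba79_ag, board `slg_modules`, row CHR: the automorphism `u ^ (m / e) ↦ ζ ^ m u ^ (m / e)`

Construction of helper85 (row CHI of `ode_modules`) with a given root of unity.
-/

set_option autoImplicit false

namespace Pool.Agent.H96.SL

open Pool.Agent.H84.SL Pool.Agent.H92.OD Pool.Agent.H85.OD

/-- A character of the rational numbers with given value at `1 / e`. -/
theorem exists_chr {k : Type} [Field k] [IsAlgClosed k] (e : ℕ) (ζ : k) (he : 0 < e)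
    (hζ : ζ ≠ 0) : ∃ χ : ℚ → k, (∀ r s, χ (r + s) = χ r * χ s) ∧ χ 0 = 1 ∧
      ∀ (m : ℤ) (r : ℚ), r * e = m → χ r = ζ ^ m := by
  classical
  have hsurj : ∀ {n : ℤ}, n ≠ 0 → Function.Surjective fun a : Additive kˣ => n • a := by
    intro n hn x
    obtain ⟨z, hz⟩ := IsAlgClosed.exists_pow_nat_eq (Additive.toMul x : kˣ).val
      (Int.natAbs_pos.2 hn)
    have hz0 : z ≠ 0 := by
      rintro rfl
      rw [zero_pow (Int.natAbs_ne_zero.2 hn)] at hz
      exact (Additive.toMul x : kˣ).ne_zero hz.symm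
    have h1 : (Units.mk0 z hz0) ^ n.natAbs = Additive.toMul x := by
      ext
      simpa using hz
    rcases Int.natAbs_eq n with h | h
    · refine ⟨Additive.ofMul (Units.mk0 z hz0), ?_⟩
      show n • Additive.ofMul (Units.mk0 z hz0) = x
      rw [h, natCast_zsmul, ← ofMul_pow, h1]
      rfl
    · refine ⟨Additive.ofMul (Units.mk0 z hz0)⁻¹, ?_⟩
      show n • Additive.ofMul (Units.mk0 z hz0)⁻¹ = x
      rw [h, neg_smul, natCast_zsmul, ← ofMul_pow, inv_pow, h1]
      rw [ofMul_inv, neg_neg]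
      rfl
  let _ : DivisibleBy (Additive kˣ) ℤ := divisibleByOfSMulRightSurj _ _ hsurj
  have heQ : (e : ℚ) ≠ 0 := by exact_mod_cast he.ne'
  have hinj : Function.Injective ((zmultiplesHom ℚ) (1 / (e : ℚ)) : ℤ →+ ℚ) := by
    intro a b hab
    simp only [zmultiplesHom_apply, zsmul_eq_mul] at hab
    have h0 : (1 / (e : ℚ)) ≠ 0 := one_div_ne_zero heQ
    exact_mod_cast mul_right_cancel₀ h0 hab
  obtain ⟨f, hf⟩ := (Module.Baer.of_divisible (Additive kˣ)).extension_property_addMonoidHom _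
    hinj ((zmultiplesHom (Additive kˣ)) (Additive.ofMul (Units.mk0 ζ hζ)))
  have hfm : ∀ m : ℤ, f (m * (1 / (e : ℚ))) = m • Additive.ofMul (Units.mk0 ζ hζ) := by
    intro m
    have := DFunLike.congr_fun hf m
    simpa [zmultiplesHom_apply, zsmul_eq_mul] using this
  refine ⟨fun r => ((Additive.toMul (f r) : kˣ) : k), fun r s => by simp [map_add], by simp,
    fun m r hr => ?_⟩
  have h1 : r = (m : ℚ) * (1 / (e : ℚ)) := by
    rw [← hr]
    field_simp
  show ((Additive.toMul (f r) : kˣ) : k) = ζ ^ m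
  rw [h1, hfm, toMul_zsmul, toMul_ofMul, Units.val_zpow_eq_zpow_val, Units.val_mk0]

theorem pf_CHR : T_CHR := by
  intro k _ _ _ e ζ he hζ
  have hζ0 : ζ ≠ 0 := by
    rintro rfl
    rw [zero_pow he.ne'] at hζ
    exact zero_ne_one hζ
  obtain ⟨χ, hχ, h0, h1⟩ := exists_chr e ζ he hζ0
  have hsg : ∀ (r : ℚ) (c : k), χ r = 1 → tw χ (sg r c) = sg r c := by
    intro r c hr
    refine hs_ext fun t => ?_
    rw [cf_tw, cf_sg]
    split_ifs with h
    · rw [h, hr, one_mul]
    · rw [mul_zero]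
  exact ⟨{ toFun := tw χ
           map_one' := by
             rw [← sg_zero_one]
             exact hsg 0 1 h0
           map_mul' := tw_mul χ hχ
           map_zero' := hs_ext fun r => by rw [cf_tw, cf_zero, mul_zero]
           map_add' := fun x y => hs_ext fun r => by
             rw [cf_tw, cf_add, cf_add, cf_tw, cf_tw, mul_add] }, χ, fun y r => cf_tw χ y r, h1⟩

end Pool.Agent.H96.SL
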